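import Pool.Agent.E8helper10.PM.RO
import Pool.Agent.E8helper15.PM.Blow
import Pool.Agent.E8helper15.PM.Hit
import Pool.Agent.E8helper19.PM.Main
import Pool.Agent.E8helper19.PM.TR
import Pool.Agent.E8helper26.PM.ID
import Pool.Agent.E8helper31.PM.NC
import Pool.Agent.E8helper38.PM.Cut
import Pool.Agent.E8helper54.PM.Ext
import Pool.Agent.E8helper60.PM.Fred
import Pool.Agent.E8helper63.PM.Cone
import Pool.Agent.E8helper63.PM.RB
import Pool.Agent.E8helper66.PM.Cac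
import Pool.Agent.E8helper66.PM.Grn
import Pool.Agent.E8helper67.PM.R0
import Pool.Agent.E8helper7.PM.Fat
import Pool.Agent.E8helper85.PM.Null
import Pool.Agent.E8helper91.PM.Apr

/-!
# Blow-up of the indicator sequence of the probe method (MP_a3c92e_an)

A full positive answer to Q1: no smallness condition on the frequency `k` is needed.
-/

set_option autoImplicit false
open MeasureTheory Filter Topology Set
open scoped ContDiff ENNReal Real InnerProductSpace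

namespace Pool.Agent.Results.MP_a3c92e_an.NeedleBlowUpH19

noncomputable section

/-- `ℝ³` -/
abbrev E : Type := EuclideanSpace ℝ (Fin 3)

/-- `ℂ³` -/
abbrev C3 : Type := EuclideanSpace ℂ (Fin 3)

/-- the partial derivative `∂_j f` -/
def pd (j : Fin 3) (f : E → ℂ) (y : E) : ℂ := fderiv ℝ f y (EuclideanSpace.single j 1)

/-- the gradient `∇f` -/
def gr (f : E → ℂ) (y : E) : C3 := WithLp.toLp 2 fun j => pd j f y

/-- the Laplacian `Δf` -/
def lap (f : E → ℂ) (y : E) : ℂ := ∑ j : Fin 3, pd j (pd j f) y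

/-- open sets with smooth boundary (given by a defining function) -/
def SmoothSet (D : Set E) : Prop :=
  ∃ ρ : E → ℝ, ContDiff ℝ ∞ ρ ∧ D = {y | ρ y < 0} ∧ ∀ y, ρ y = 0 → fderiv ℝ ρ y ≠ 0

/-- the square of the norm of `H¹(U)` -/
def H1 (U : Set E) (f : E → ℂ) : ℝ := ∫ y in U, (‖f y‖ ^ 2 + ‖gr f y‖ ^ 2)

/-- test functions: `f ∈ C_c^∞(Ω)` -/
structure Tst (Ω : Set E) (f : E → ℂ) : Prop where
  smooth : ContDiff ℝ ∞ f
  cpt : HasCompactSupport f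
  supp : tsupport f ⊆ Ω

/-- `v ∈ H¹(Ω)` is a solution of `Δv + k²v = 0` in `Ω` -/
structure Helm (k : ℝ) (Ω : Set E) (v : E → ℂ) : Prop where
  smooth : ContDiffOn ℝ ∞ v Ω
  eq : ∀ y ∈ Ω, lap v y = -((k ^ 2 : ℝ) : ℂ) * v y
  fin : IntegrableOn (fun y => ‖v y‖ ^ 2 + ‖gr v y‖ ^ 2) Ω

/-- `∫_U (∇p·∇q̄ - k² p q̄)`, where `gp` is the gradient of `p` -/
def form (k : ℝ) (U : Set E) (p : E → ℂ) (gp : E → C3) (q : E → ℂ) : ℂ :=
  ∫ y in U, (⟪gr q y, gp y⟫_ℂ - ((k ^ 2 : ℝ) : ℂ) * ((starRingEnd ℂ) (q y) * p y))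

/-- `w ∈ H¹(Ω∖D̄)`, with gradient `g`, and `w = 0` on `∂Ω`: a limit in `H¹(Ω∖D̄)` of functions
of `C_c^∞(Ω)` -/
structure Van (Ω D : Set E) (w : E → ℂ) (g : E → C3) : Prop where
  w2 : MemLp w 2 (volume.restrict (Ω \ closure D))
  g2 : MemLp g 2 (volume.restrict (Ω \ closure D))
  lim : ∀ ε : ℝ, 0 < ε → ∃ f : E → ℂ, Tst Ω f ∧
    ∫ y in Ω \ closure D, (‖w y - f y‖ ^ 2 + ‖g y - gr f y‖ ^ 2) < ε

/-- `u ∈ H¹(Ω∖D̄)`, with gradient `gu`, is the weak solution of `Δu + k²u = 0` in `Ω∖D̄`,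
`∂_ν u = 0` on `∂D`, `u = v` on `∂Ω` -/
structure WSol (k : ℝ) (Ω D : Set E) (v u : E → ℂ) (gu : E → C3) : Prop where
  van : Van Ω D (fun y => u y - v y) (fun y => gu y - gr v y)
  eq : ∀ f, Tst Ω f → form k (Ω \ closure D) u gu f = 0

/-- `k²` is not an eigenvalue of `-Δ` in `Ω∖D̄` with Dirichlet condition on `∂Ω` and Neumann
condition on `∂D` -/
def NonEig (k : ℝ) (Ω D : Set E) : Prop :=
  ∀ (w : E → ℂ) (g : E → C3), Van Ω D w g →
    (∀ f, Tst Ω f → form k (Ω \ closure D) w g f = 0) →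
    ∀ᵐ y ∂(volume.restrict (Ω \ closure D)), w y = 0

/-- `∫_{∂Ω} (∂_ν v - Λ_D v) v̄ dS` -/
def Ind (k : ℝ) (Ω D : Set E) (v u : E → ℂ) (gu : E → C3) : ℂ :=
  form k Ω v (gr v) v - form k (Ω \ closure D) u gu v

/-- the finite cone with vertex `z`, axis `a`, radius `r` and opening `πα` -/
def Cone (z a : E) (r α : ℝ) : Set E :=
  {y | ‖y - z‖ < r ∧ ‖y - z‖ * Real.cos (π * α / 2) < ⟪y - z, a⟫_ℝ}

/-- the singular solution -/
structure Sing (k : ℝ) (G : E → ℂ) : Prop where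
  smooth : ContDiffOn ℝ ∞ G {0}ᶜ
  eq : ∀ y, y ≠ 0 → lap G y = -((k ^ 2 : ℝ) : ℂ) * G y
  cone : ∀ (a : E) (r α : ℝ), ‖a‖ = 1 → 0 < r → 0 < α → α < 1 →
    ¬ IntegrableOn (fun y => ‖gr G y‖ ^ 2) (Cone 0 a r α)

/-- needles: injective piecewise linear curves in `Ω` from `∂Ω` to `x` -/
structure Needle (Ω : Set E) (x : E) (σ : ℝ → E) : Prop where
  cont : ContinuousOn σ (Icc 0 1)
  inj : InjOn σ (Icc 0 1)
  start : σ 0 ∈ frontier Ω
  fin : σ 1 = x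
  mem : ∀ t, 0 < t → t < 1 → σ t ∈ Ω
  pl : ∃ (m : ℕ) (t : ℕ → ℝ) (p q : ℕ → E), t 0 = 0 ∧ t m = 1 ∧
    ∀ i < m, t i ≤ t (i + 1) ∧ ∀ s ∈ Icc (t i) (t (i + 1)), σ s = p i + s • q i

/-- needle sequences -/
structure NSeq (k : ℝ) (Ω : Set E) (G : E → ℂ) (x : E) (σ : ℝ → E) (v : ℕ → E → ℂ) : Prop where
  sol : ∀ n, Helm k Ω (v n)
  conv : ∀ K, IsCompact K → K ⊆ Ω \ σ '' Icc 0 1 →
    Tendsto (fun n => H1 K (fun y => v n y - G (y - x))) atTop (𝓝 0)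

/-- For every bounded open `Ω`, every open `D` with smooth boundary and `D̄ ⊆ Ω`, every `k > 0`
such that `k²` is not an eigenvalue, every singular solution `G`, every `x ∈ Ω` and every needle
`σ` for `x` such that `x ∈ D̄` or `σ` meets `D`, and every needle sequence `v` for `(x,σ)`, the
indicator sequence is real and tends to `+∞`. -/
theorem result (k : ℝ) (Ω D : Set E) (G : E → ℂ) (x : E) (σ : ℝ → E) (v u : ℕ → E → ℂ)
    (g : ℕ → E → C3) (hk : 0 < k) (oΩ : IsOpen Ω) (bΩ : Bornology.IsBounded Ω)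
    (sD : SmoothSet D) (cD : closure D ⊆ Ω) (hne : NonEig k Ω D) (hG : Sing k G) (xΩ : x ∈ Ω)
    (hσ : Needle Ω x σ)
    (hx : x ∈ closure D ∨ (x ∉ closure D ∧ (σ '' Icc 0 1 ∩ D).Nonempty))
    (hv : NSeq k Ω G x σ v) (hu : ∀ n, WSol k Ω D (v n) (u n) (g n)) :
    (∀ n, (Ind k Ω D (v n) (u n) (g n)).im = 0) ∧
      Tendsto (fun n => (Ind k Ω D (v n) (u n) (g n)).re) atTop atTop := by
  have null : Pool.Agent.E8helper19.PM.S_NULL := Pool.Agent.E8helper85.PM.t_NULL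
  have grn : Pool.Agent.E8helper19.PM.S_GRN := Pool.Agent.E8helper66.PM.t_GRN
  have nc : Pool.Agent.E8helper19.PM.S_NC := Pool.Agent.E8helper31.PM.t_NC
  have r0 : Pool.Agent.E8helper19.PM.S_R0 := Pool.Agent.E8helper67.PM.t_R0 nc
  have tr : Pool.Agent.E8helper19.PM.S_TR :=
    Pool.Agent.E8helper19.PMTR.t_TR Pool.Agent.E8helper54.PM.Ext.t_EXT grn null
  have ro : Pool.Agent.E8helper19.PM.S_RO :=
    Pool.Agent.E8helper10.PM.t_RO nc Pool.Agent.E8helper63.PM.t_RB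
  have fred : Pool.Agent.E8helper19.PM.S_FRED := Pool.Agent.E8helper60.PM.t_FRED ro
  have hit : Pool.Agent.E8helper19.PM.S_HIT :=
    Pool.Agent.E8helper15.PM.Hit.t_HIT r0 (Pool.Agent.E8helper66.PM.t_CAC grn) null
  have blow : Pool.Agent.E8helper19.PM.S_BLOW :=
    Pool.Agent.E8helper15.PM.t_BLOW (Pool.Agent.E8helper7.PM.t_FAT null)
      Pool.Agent.E8helper63.PM.t_CONE hit
      (Pool.Agent.E8helper38.PMC.t_CUT Pool.Agent.E8helper91.PM.t_APR)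
  have van : ∀ (w : E → ℂ) (g : E → C3), Van Ω D w g →
      Pool.Agent.E8helper19.PM.Van Ω D w g := fun w g h =>
    ⟨h.w2, h.g2, fun ε hε => by
      obtain ⟨f, hf, h2⟩ := h.lim ε hε
      exact ⟨f, ⟨hf.smooth, hf.cpt, hf.supp⟩, h2⟩⟩
  have van' : ∀ (w : E → ℂ) (g : E → C3), Pool.Agent.E8helper19.PM.Van Ω D w g →
      Van Ω D w g := fun w g h =>
    ⟨h.w2, h.g2, fun ε hε => by
      obtain ⟨f, hf, h2⟩ := h.lim ε hε
      exact ⟨f, ⟨hf.smooth, hf.cpt, hf.supp⟩, h2⟩⟩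
  have ne' : Pool.Agent.E8helper19.PM.NonEig k Ω D := fun w g h1 h2 =>
    hne w g (van' w g h1) fun f hf => h2 f ⟨hf.smooth, hf.cpt, hf.supp⟩
  refine Pool.Agent.E8helper19.PM.t_MAIN (Pool.Agent.E8helper26.PM.t_ID null) tr fred r0 blow null
    k Ω D G x σ v u g hk oΩ bΩ sD cD ne' ⟨hG.smooth, hG.eq, hG.cone⟩ xΩ
    ⟨hσ.cont, hσ.inj, hσ.start, hσ.fin, hσ.mem, hσ.pl⟩ ?_
    ⟨fun n => ⟨(hv.sol n).smooth, (hv.sol n).eq, (hv.sol n).fin⟩, hv.conv⟩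
    fun n => ⟨van _ _ (hu n).van, fun f hf => (hu n).eq f ⟨hf.smooth, hf.cpt, hf.supp⟩⟩
  exact hx.imp id fun h => h.2

end

end Pool.Agent.Results.MP_a3c92e_an.NeedleBlowUpH19
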